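import Pool.Agent.N90.AC.Fin

/-!
# Consequences of the abelianness of the category of Chow motives over a finite field
-/

set_option autoImplicit false

open CategoryTheory MonoidalCategory Limits

universe w v u

namespace Pool.Agent.Results.MP_6c4da4_ag.AbelianConsequences

open Pool.Agent.N90.AC

/-- **If the category `A` of the Chow motives over the field with `q` elements is abelian, then**

1. every motive `M` has finite length, at most the sum of its Betti numbers (which is multiplicative,
so that the length of the `n`-th tensor power is at most the `n`-th power of this number); a motive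
without cohomology is zero;

2. the Betti numbers are additive in short exact sequences;

3. numerically trivial endomorphisms are nilpotent;

4. every motive has Chow–Künneth projectors, which are polynomials in the Frobenius endomorphism;

5. every motive is finite-dimensional in the sense of Kimura and O'Sullivan;

6. the groups of cycles modulo rational equivalence (with rational coefficients) have finite
dimension: the dimension of the group of cycles on `X` of codimension `d - i` plus the dimension of
the group of numerically trivial cycles of codimension `i` is at most the order of the pole of the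
zeta function of `X` at `i` (`d = dim X`);

7. if the strong form of the Tate conjecture holds for `X` and `i`, then rational and numerical
equivalence of cycles of codimension `i` on `X` agree. -/
theorem result {K : Type w} [Field K] [CharZero K] {A : Type u} [Category.{v} A] [Abelian A]
    [Linear ℚ A] [MonoidalCategory A] [MonoidalPreadditive A] [SymmetricCategory A]
    [RightRigidCategory A] {q : ℕ} (hq : 1 < q) (𝓜 : Motives K A q) :
    (∀ (M : A) (s : LTSeries (Subobject M)), s.length ≤ 𝓜.totalBetti M) ∧
    (∀ (M : A) (n : ℕ), 𝓜.totalBetti (power M n) = 𝓜.totalBetti M ^ n) ∧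
    (∀ M : A, 𝓜.totalBetti M = 0 → IsZero M) ∧
    (∀ (L M Q : A) (i : L ⟶ M) (p : M ⟶ Q) (w : i ≫ p = 0), Mono i → Epi p →
      (ShortComplex.mk i p w).Exact → ∀ n, 𝓜.betti M n = 𝓜.betti L n + 𝓜.betti Q n) ∧
    (∀ (M : A) (f : End M), NumTrivialEnd (f : M ⟶ M) → f ^ 𝓜.totalBetti M = 0) ∧
    (∀ M : A, 𝓜.ChowKunneth M) ∧
    (∀ M : A, 𝓜.KimuraFinite M) ∧
    (∀ M : A, Module.Finite ℚ (𝟙_ A ⟶ M) ∧ Module.Finite ℚ (M ⟶ 𝟙_ A) ∧
      Module.finrank ℚ (numTrivial M) + Module.finrank ℚ (M ⟶ 𝟙_ A) ≤ 𝓜.poleOrder M) ∧
    ∀ M : A, 𝓜.StrongTate M → numTrivial M = ⊥ :=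
  ⟨fun M s => length_le 𝓜 hq M s,
    fun M n => total_power 𝓜 M n,
    fun _ h => isZero_of_total 𝓜 hq h,
    fun _ _ _ i p w _ _ hex n => betti_exact 𝓜 hq i p w hex n,
    fun _ f hf => nilpotent 𝓜 hq f hf,
    fun M => chow_kunneth 𝓜 hq M,
    fun M => kimura_finite 𝓜 hq M,
    fun M => ⟨finite_unit_hom 𝓜 hq M, finite_hom_unit 𝓜 hq M, finrank_le 𝓜 hq M⟩,
    fun _ h => numTrivial_eq_bot 𝓜 hq h⟩

end Pool.Agent.Results.MP_6c4da4_ag.AbelianConsequences
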