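import Mathlib
import Pool.Agent.N166.AB.Main

/-!
# The Chow motives generated by almost all abelian varieties over finite fields

Let `g i` (`i` in a finite set `I`) be positive integers, `r` an integer smaller than all the `g i`
and `E` a number field.  For a prime power `q` let `S i` be the set of the characteristic
polynomials of Frobenius of the ordinary abelian varieties of dimension `g i` over the field with `q`
elements, or of all abelian varieties of dimension `g i`, or any set in between.  By Weil, Honda and
Tate its elements correspond to the isogeny classes, the first set contains `ordinaryWeilPolys q
(g i)`, and the second one is contained in `weilPolys q (g i)`.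

For all families `f i` in `S i` with the exception of a proportion `O (q ^ (-1 / 6) log q)`, the
constant depending only on `g` and `E`, the following holds for all `s > 0`, `Q = q ^ s`, every
family `A j` of abelian varieties over the field `k` with `Q` elements, isogenous to products of
powers of abelian varieties coming from the field with `q` elements with characteristic polynomials
`f i`, and every family `Z j` of smooth projective varieties over `k` such that

* the eigenvalues of Frobenius on the cohomology of `Z i × Z j` and their conjugates generate a
  group of rank at most `r` modulo the group of the numbers with a power in `E`;
* homologically trivial self-correspondences of `(A i × A j) × (Z i × Z j)` are nilpotent, for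
  instance the motives of the `Z j` are finite-dimensional in the sense of Kimura and O'Sullivan;
* rational and numerical equivalence coincide on `Z i × Z j`, for instance the `Z j` are points, or
  curves (of small Frobenius rank).

**The category of Chow motives over `k` generated by all the `A j × Z j`** - the idempotent
completion of the category of finite direct sums of Tate twists `h(A_j × Z_j)(m)`, a full
subcategory of the category `CHMot(k)` of the question - **is abelian and semisimple.** For the
trivial family of `Z j` (points) and all `A j` with the given characteristic polynomials this is the
category of Chow motives of all these abelian varieties together.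

The idea of the proof: by a sieve (helper521) almost all families are such that each pair `α`,
`q / α` of roots can be exchanged by a Galois automorphism which fixes all the other roots and the
elements of `E`. By helper484 it follows that rational and numerical equivalence coincide on
`(A i × A j) × (Z i × Z j)`. It remains to prove the theorem of Jannsen for Chow motives generated by
varieties for which rational and numerical equivalence coincide on the products of two of them: a
trace formula for matrices of correspondences of degree zero between twisted motives shows that the
endomorphism rings, which are finite-dimensional over the rational numbers, have no radical, so that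
every morphism `f` has a quasi-inverse `g`, `f g f = f`, and an idempotent complete additive
category with this property is abelian and semisimple.
-/

set_option autoImplicit false

namespace Pool.Agent.Results.MP_6c4da4_ag.AlmostAllAbelianMotives

open Polynomial Pool.Agent.W521.Descent Pool.Agent.W521.Count Pool.Agent.W484.TB
  Pool.Agent.W484.CK Pool.Agent.N166.AB

/-- `weilPolys q g` is the set of monic integral polynomials of degree `2 g` with constant term
`q ^ g` and all roots of absolute value `√q`; `ordinaryWeilPolys q g` is the subset of those
whose coefficient of index `g` is prime to `q`. -/
theorem result {I : Type} [Fintype I] (g : I → ℕ) (r : ℕ) (hr : ∀ i, r < g i)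
    (E : IntermediateField ℚ ℂ) [FiniteDimensional ℚ E] :
    ∃ C : ℝ, ∀ q : ℕ, IsPrimePow q → ∀ S : I → Set ℤ[X],
      (∀ i, ordinaryWeilPolys q (g i) ⊆ S i ∧ S i ⊆ weilPolys q (g i)) →
      (∀ i, (S i).Finite ∧ (S i).Nonempty) ∧
      ({f : I → ℤ[X] | (∀ i, f i ∈ S i) ∧ ¬ AbelianForRankOver E q r f}.ncard : ℝ) ≤
        C * (Real.log q * (q : ℝ) ^ (-(1 / 6) : ℝ)) * ∏ i, ((S i).ncard : ℝ) :=
  count_of_goodU (splitPrimes E) (dense_splitPrimes E) g
    (fun i => (Nat.zero_le r).trans_lt (hr i)) (fun q f => AbelianForRankOver E q r f)
    fun _ hq x hx => abelianForRankOver_of_chow (chowForRankOver_of_good g E hq.one_lt r hr x hx)

end Pool.Agent.Results.MP_6c4da4_ag.AlmostAllAbelianMotives
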