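import Pool.Agent.N567.AM.Main

/-!
# If Chow motives form an abelian category, exterior products of cycles do not vanish

Let `𝒱` be a class of smooth projective varieties over a field `k` closed under products, for example
all smooth projective (geometrically irreducible) varieties over a finite field, and let
`ChowMotives C (fun Z : 𝒱.Obj => Z)` be the category of Chow motives of these varieties with rational
coefficients: the idempotent completion of the category of finite direct sums of the `h(X)(m)`.

It is shown: if this category is abelian (or only: every morphism is the composition of an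
epimorphism and a monomorphism), then the exterior product of two cycle classes vanishes only if one
of them does. So there are no nonzero smash-nilpotent cycle classes. Hence, if the category is
abelian and the nilpotence conjecture of Voevodsky is true, rational and numerical equivalence
coincide; conversely, if they coincide the category is abelian by the theorem of Jannsen.

The proof uses neither the tensor structure nor kernels. Let `1 → I → h(X)(j)` be the factorization of
the morphism given by a class `z ≠ 0`, where `I` is the image of an idempotent matrix `p` of
correspondences, and let `e` be the first morphism. As `e` is an epimorphism, `e ⊗ id` and `id ⊗ e`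
coincide on `I`, and the exchange of the factors of `I ⊗ I` is the identity; contracting one factor
one finds `p = χ p`, where `χ` is the trace of `p`. So `χ = 1`. If `x × z = 0` then `x × e = 0`, as
`I → h(X)(j)` is a monomorphism, so `x × p = 0`, as `e` is an epimorphism, and `x = χ x = 0`.
-/

set_option autoImplicit false

open CategoryTheory AlgebraicGeometry

universe u v w

namespace Pool.Agent.Results.MP_6c4da4_ag.ExteriorProducts

open Pool.Agent.H914 Pool.Agent.H914.VarClass.Obj Pool.Agent.W492.BB Pool.Agent.TH133
  Pool.Agent.N166.AB Pool.Agent.W484.CK Pool.Agent.N567.AM

attribute [-instance] Pool.Agent.TH829.Kim.chCommRing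

/-- Let `C` be the Chow groups with rational coefficients of the varieties in `𝒱`.

If every morphism of Chow motives is the composition of an epimorphism and a monomorphism (for
instance if the category of Chow motives is abelian), then

* the exterior product `x × y` of homogeneous classes is zero only if `x` or `y` is zero;
* all the exterior powers `x × ⋯ × x` of a nonzero homogeneous class `x` are nonzero.

Let `H` be a Weil cohomology theory with coefficients in a field of characteristic zero. Rational and
numerical equivalence coincide on all the varieties in `𝒱` if and only if the category of Chow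
motives is abelian and all numerically trivial classes are smash-nilpotent. -/
theorem result {k : Type u} [Field k] {𝒱 : VarClass k} {C : TheoryData.{u, v, 0} 𝒱 ℚ}
    [IsChowProj C] [PushIso C] {K : Type w} [Field K] [CharZero K]
    {H : WeilTheoryData.{u, v, w} C K} [IsWeil H] (hS : IsStandard H)
    (hG : Pool.Agent.N166.AB.IsGradedCommutative H) :
    ((HasEpiMono (ChowMotives C fun Z : 𝒱.Obj => Z) ∨
        Nonempty (Abelian (ChowMotives C fun Z : 𝒱.Obj => Z))) →
      (∀ (X Y : 𝒱.Obj) (i j : ℤ) (x : C.A X) (y : C.A Y), C.Deg i x → C.Deg j y →
        C.mul (C.up (fst X Y) x) (C.up (snd X Y) y) = 0 → x = 0 ∨ y = 0) ∧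
      ∀ (X : 𝒱.Obj) (i : ℤ) (x : C.A X), C.Deg i x → x ≠ 0 →
        ∀ (Y : 𝒱.Obj) (b : C.A Y), IsExtPower C x Y b → b ≠ 0) ∧
    ((∀ X : 𝒱.Obj, RatEqNum H X) ↔
      (Nonempty (Abelian (ChowMotives C fun Z : 𝒱.Obj => Z)) ∧
        ∀ (X : 𝒱.Obj) (i : ℕ) (z : C.A X), C.Deg i z →
          (∀ (j : ℕ) (w : C.A X), i + j = X.dim → C.Deg j w → H.tr X (H.cl (C.mul z w)) = 0) →
            ∃ Y : 𝒱.Obj, IsExtPower C z Y 0)) := by
  refine ⟨fun h => ?_, mainAM hS hG⟩
  have h1 : HasEpiMono (CHM C) := by
    rcases h with h | h
    · exact h
    · exact hasEpiMono_of_abelian h
  exact ⟨fun X Y i j x y hx hy hxy => prime_of_epiMono h1 hx hy hxy,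
    fun X i x hx hx0 Y b hb hb0 => hx0 ((extPower_zero h1 hx hb).2 hb0)⟩

end Pool.Agent.Results.MP_6c4da4_ag.ExteriorProducts
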